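import Mathlib

/-!
# Twisted bordism theories on groups with orientation character

Definitions for `MP_d40431_gt`. The motivating example of a `Theory` is the bordism group
`Ω (G, χ)` of closed smooth 4-manifolds `X` with a Pin^- structure and a map `f : X → BG` with
`w₁ X = χ ∘ f` (twisted spin bordism), with `kappa` the class of the `K3` surface.
-/

namespace Pool.Agent.D4

/-- The square `f ∘ i = g ∘ j` of groups is a pushout. -/
structure Pushout {C A B G : Type} [Group C] [Group A] [Group B] [Group G]
    (i : C →* A) (j : C →* B) (f : A →* G) (g : B →* G) : Prop where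
  comm : f.comp i = g.comp j
  desc : ∀ (K : Type) [Group K] (a : A →* K) (b : B →* K), a.comp i = b.comp j →
    ∃! c : G →* K, c.comp f = a ∧ c.comp g = b

/-- The parity character `n ↦ (-1) ^ n` of the infinite cyclic group. -/
def parity : Multiplicative ℤ →* ℤˣ := zpowersHom ℤˣ (-1)

/-- An assignment of an abelian group `obj χ` to each group with a character `χ : G → {1, -1}`, of
a map `obj χ → obj ψ` to each homomorphism `f : G → H` with `ψ ∘ f = χ`, and a class `kappa` over
the trivial group. -/
structure OriData where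
  /-- the value at a group with character -/
  obj : ∀ {G : Type} [Group G], (G →* ℤˣ) → Type
  /-- it is an abelian group -/
  [inst : ∀ {G : Type} [Group G] (χ : G →* ℤˣ), AddCommGroup (obj χ)]
  /-- the map of a homomorphism -/
  map : ∀ {G H : Type} [Group G] [Group H] {χ : G →* ℤˣ} {ψ : H →* ℤˣ} (f : G →* H),
    ψ.comp f = χ → (obj χ →+ obj ψ)
  /-- the distinguished class over the trivial group -/
  kappa : obj (1 : Unit →* ℤˣ)

attribute [instance] OriData.inst

/-- The image of `kappa` at a group with character. -/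
def OriData.k (Ω : OriData) {G : Type} [Group G] (χ : G →* ℤˣ) : Ω.obj χ :=
  Ω.map (1 : Unit →* G) (MonoidHom.comp_one _) Ω.kappa

/-- `Ω` is a functor. -/
structure OriData.Functorial (Ω : OriData) : Prop where
  map_id : ∀ {G : Type} [Group G] {χ : G →* ℤˣ} (h : χ.comp (MonoidHom.id G) = χ) (a : Ω.obj χ),
    Ω.map (MonoidHom.id G) h a = a
  map_comp : ∀ {G H K : Type} [Group G] [Group H] [Group K] {χ : G →* ℤˣ} {ψ : H →* ℤˣ}
    {φ : K →* ℤˣ} (f : G →* H) (g : H →* K) (hf : ψ.comp f = χ) (hg : φ.comp g = ψ)
    (h : φ.comp (g.comp f) = χ) (a : Ω.obj χ), Ω.map g hg (Ω.map f hf a) = Ω.map (g.comp f) h a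

/-- `kappa` has infinite order; it generates the value at the infinite cyclic group with trivial
character; it is not zero at the infinite cyclic group with the parity character; it is zero at
the group `{1, -1}` with the identity character. -/
structure OriData.Values (Ω : OriData) : Prop where
  point : ∀ n : ℤ, n • Ω.kappa = 0 → n = 0
  circle : ∀ a : Ω.obj (1 : Multiplicative ℤ →* ℤˣ), ∃ n : ℤ, a = n • Ω.k 1
  moebius : Ω.k parity ≠ 0
  involution : Ω.k (MonoidHom.id ℤˣ) = 0

/-- Exactness of the Mayer-Vietoris sequence at the sum, for the square `f ∘ i = g ∘ j` and the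
character `χ`. -/
def OriData.ExactAt (Ω : OriData) {C A B G : Type} [Group C] [Group A] [Group B] [Group G]
    (i : C →* A) (j : C →* B) (f : A →* G) (g : B →* G) (χ : G →* ℤˣ) : Prop :=
  ∀ (a : Ω.obj (χ.comp f)) (b : Ω.obj (χ.comp g)), Ω.map f rfl a = Ω.map g rfl b →
    ∃ c : Ω.obj ((χ.comp f).comp i), Ω.map i rfl c = a ∧
      ∀ h : (χ.comp g).comp j = (χ.comp f).comp i, Ω.map j h c = b

/-- A functor from groups with a character to `{1, -1}` to abelian groups, with a class `kappa`
with the four values of `Values`, whose Mayer-Vietoris sequence is exact at the sum for each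
amalgamated product (pushout of injective maps). -/
structure Theory extends OriData where
  functorial : toOriData.Functorial
  values : toOriData.Values
  mayerVietoris : ∀ {C A B G : Type} [Group C] [Group A] [Group B] [Group G]
    (i : C →* A) (j : C →* B) (f : A →* G) (g : B →* G), Pushout i j f g →
    Function.Injective i → Function.Injective j → ∀ χ : G →* ℤˣ, toOriData.ExactAt i j f g χ

/-- The relators of `⟨H, t | t ^ 2 = w⟩`, where `H = ⟨Fin N | rels⟩` and `t` is the last
generator. -/
def rootRels {N : ℕ} (rels : Set (FreeGroup (Fin N))) (w : List (Fin N × Bool)) :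
    Set (FreeGroup (Fin (N + 1))) :=
  (FreeGroup.map Fin.castSucc '' rels) ∪
    {FreeGroup.of (Fin.last N) * FreeGroup.of (Fin.last N) *
      (FreeGroup.map Fin.castSucc (FreeGroup.mk w))⁻¹}

/-- The group `⟨H, t | t ^ 2 = w⟩`. -/
abbrev RootGroup {N : ℕ} (rels : Set (FreeGroup (Fin N))) (w : List (Fin N × Bool)) : Type :=
  PresentedGroup (rootRels rels w)

/-- The sign of a generator: `-1` for `t`, `1` for the others. -/
def sgn (N : ℕ) (i : Fin (N + 1)) : ℤˣ := if i = Fin.last N then -1 else 1

theorem lift_sgn_castSucc {N : ℕ} (g : FreeGroup (Fin N)) :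
    FreeGroup.lift (sgn N) (FreeGroup.map Fin.castSucc g) = 1 := by
  have h : (FreeGroup.lift (sgn N)).comp (FreeGroup.map Fin.castSucc) = 1 := by
    ext i
    simp [sgn, Fin.castSucc_ne_last]
  exact DFunLike.congr_fun h g

theorem lift_sgn_rel {N : ℕ} (rels : Set (FreeGroup (Fin N))) (w : List (Fin N × Bool)) :
    ∀ r ∈ rootRels rels w, FreeGroup.lift (sgn N) r = 1 := by
  rintro r (⟨g, -, rfl⟩ | hr)
  · exact lift_sgn_castSucc g
  · rw [Set.mem_singleton_iff] at hr
    subst hr
    rw [map_mul, map_inv, lift_sgn_castSucc, map_mul, FreeGroup.lift_apply_of]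
    simp [sgn]

/-- The character of `⟨H, t | t ^ 2 = w⟩` which is `-1` at `t` and `1` on `H`. -/
def rootChar {N : ℕ} (rels : Set (FreeGroup (Fin N))) (w : List (Fin N × Bool)) :
    RootGroup rels w →* ℤˣ :=
  PresentedGroup.toGroup (lift_sgn_rel rels w)

end Pool.Agent.D4
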