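import Pool.Agent.D4.Torsion

/-!
# A theory

PROOF. `obj χ = ℤ ⧸ I χ`, where `I χ = ⊤` if some `x` has `x * x = 1` and `χ x = -1`; otherwise
`I χ = ⊥` if `χ = 1` and `I χ = AddSubgroup.zmultiples 2` if `χ ≠ 1`. If `ψ.comp f = χ` then
`I χ ≤ I ψ`, and `map` is the projection. `kappa` is the class of `1`. `point`: `I 1 = ⊥`.
`circle`: clear. `moebius`: `parity ≠ 1` and no `x` in `ℤ` has `2 x = 0` and `parity x = -1`.
`involution`: take `x = -1`. `mayerVietoris`: classes `a, b : ℤ` with `a - b ∈ I χ_G`; we need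
`c : ℤ` with `c - a ∈ I χ_A` and `c - b ∈ I χ_B`, that is `I χ_G ≤ I χ_A ⊔ I χ_B`. If `G` has an
element `x` with `x * x = 1`, `χ x = -1`, then by `conj_of_sq_eq_one` a conjugate `f a` or `g b` of
it is in a factor, with `a * a = 1` (`f_injective`) and `χ (f a) = -1`; so one of the two is `⊤`.
If `G` has none and `χ_G = 1` then `I χ_G = ⊥`. If `G` has none and `χ_G ≠ 1` then
`I χ_G = zmultiples 2`, and one of `χ_A, χ_B` is not `1` (else `χ_G = 1` by uniqueness in the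
pushout property), so that one of `I χ_A, I χ_B` contains `zmultiples 2`.
-/

namespace Pool.Agent.D4

/-- There is an element of order two with sign `-1`. -/
def HasNeg {G : Type} [Group G] (χ : G →* ℤˣ) : Prop := ∃ x : G, x * x = 1 ∧ χ x = -1

/-- The subgroup of `ℤ` which is divided out. -/
def exI {G : Type} [Group G] (χ : G →* ℤˣ) : AddSubgroup ℤ where
  carrier := {n | HasNeg χ ∨ (χ ≠ 1 ∧ Even n) ∨ n = 0}
  zero_mem' := Or.inr (Or.inr rfl)
  add_mem' := by
    rintro a b (h | ⟨h, ha⟩ | h) (h' | ⟨h', hb⟩ | h')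
    · exact Or.inl h
    · exact Or.inl h
    · exact Or.inl h
    · exact Or.inl h'
    · exact Or.inr (Or.inl ⟨h, ha.add hb⟩)
    · subst h'
      exact Or.inr (Or.inl ⟨h, by simpa using ha⟩)
    · exact Or.inl h'
    · subst h
      exact Or.inr (Or.inl ⟨h', by simpa using hb⟩)
    · subst h
      subst h'
      exact Or.inr (Or.inr rfl)
  neg_mem' := by
    rintro a (h | ⟨h, ha⟩ | h)
    · exact Or.inl h
    · exact Or.inr (Or.inl ⟨h, ha.neg⟩)
    · subst h
      exact Or.inr (Or.inr rfl)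

theorem mem_exI {G : Type} [Group G] (χ : G →* ℤˣ) (n : ℤ) :
    n ∈ exI χ ↔ HasNeg χ ∨ (χ ≠ 1 ∧ Even n) ∨ n = 0 := Iff.rfl

theorem exI_le {G H : Type} [Group G] [Group H] {χ : G →* ℤˣ} {ψ : H →* ℤˣ} (f : G →* H)
    (h : ψ.comp f = χ) : exI χ ≤ exI ψ := by
  subst h
  intro n hn
  rw [mem_exI] at hn ⊢
  rcases hn with ⟨x, hx, hx'⟩ | ⟨h, he⟩ | h
  · refine Or.inl ⟨f x, ?_, hx'⟩
    rw [← map_mul, hx, map_one]
  · refine Or.inr (Or.inl ⟨fun h1 => h ?_, he⟩)
    subst h1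
    rfl
  · exact Or.inr (Or.inr h)

/-- The projection. -/
def exMap {G H : Type} [Group G] [Group H] {χ : G →* ℤˣ} {ψ : H →* ℤˣ} (f : G →* H)
    (h : ψ.comp f = χ) : ℤ ⧸ exI χ →+ ℤ ⧸ exI ψ :=
  QuotientAddGroup.map (exI χ) (exI ψ) (AddMonoidHom.id ℤ) (fun _ hn => exI_le f h hn)

theorem exMap_mk {G H : Type} [Group G] [Group H] {χ : G →* ℤˣ} {ψ : H →* ℤˣ} (f : G →* H)
    (h : ψ.comp f = χ) (n : ℤ) :
    exMap f h (QuotientAddGroup.mk n : ℤ ⧸ exI χ) = (QuotientAddGroup.mk n : ℤ ⧸ exI ψ) := rfl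

theorem mk_eq_zero {G : Type} [Group G] (χ : G →* ℤˣ) (n : ℤ) :
    (QuotientAddGroup.mk n : ℤ ⧸ exI χ) = 0 ↔ n ∈ exI χ :=
  QuotientAddGroup.eq_zero_iff n

theorem mk_eq_mk {G : Type} [Group G] (χ : G →* ℤˣ) (m n : ℤ) :
    (QuotientAddGroup.mk m : ℤ ⧸ exI χ) = QuotientAddGroup.mk n ↔ n - m ∈ exI χ := by
  rw [QuotientAddGroup.eq]
  rw [neg_add_eq_sub]

theorem zsmul_mk {G : Type} [Group G] (χ : G →* ℤˣ) (n : ℤ) :
    n • (QuotientAddGroup.mk 1 : ℤ ⧸ exI χ) = QuotientAddGroup.mk n := by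
  rw [← QuotientAddGroup.mk_zsmul]
  simp

theorem neg_one_ne : (1 : ℤˣ) ≠ -1 := by decide

theorem one_not_mem_parity : (1 : ℤ) ∉ exI parity := by
  rw [mem_exI]
  rintro (⟨x, hx, hx'⟩ | ⟨-, h⟩ | h)
  · have h1 : x.toAdd + x.toAdd = 0 := by
      rw [← toAdd_mul, hx, toAdd_one]
    have h2 : x.toAdd = 0 := by omega
    have h3 : x = 1 := by
      rw [← ofAdd_toAdd x, h2, ofAdd_zero]
    subst h3
    rw [map_one] at hx'
    exact neg_one_ne hx'
  · exact absurd h (by decide)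
  · exact one_ne_zero h

theorem exMV {C A B G : Type} [Group C] [Group A] [Group B] [Group G]
    (i : C →* A) (j : C →* B) (f : A →* G) (g : B →* G) (hp : Pushout i j f g)
    (hi : Function.Injective i) (hj : Function.Injective j) (χ : G →* ℤˣ) (m n : ℤ)
    (h : n - m ∈ exI χ) : ∃ c : ℤ, m - c ∈ exI (χ.comp f) ∧ n - c ∈ exI (χ.comp g) := by
  rw [mem_exI] at h
  rcases h with ⟨x, hx, hx'⟩ | ⟨h, he⟩ | h
  · obtain ⟨y, ⟨a, ha⟩ | ⟨b, hb⟩⟩ := conj_of_sq_eq_one i j f g hp hi hj x hx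
    · refine ⟨n, Or.inl ⟨a, ?_, ?_⟩, ?_⟩
      · apply f_injective i j f g hp hi hj
        rw [map_mul, ← ha, map_one]
        calc y * x * y⁻¹ * (y * x * y⁻¹) = y * (x * x) * y⁻¹ := by group
          _ = 1 := by rw [hx]; group
      · rw [MonoidHom.comp_apply, ← ha, map_mul, map_mul, hx', map_inv]
        rw [mul_comm (χ y), mul_assoc, mul_inv_cancel, mul_one]
      · rw [sub_self]
        exact zero_mem _
    · refine ⟨m, ?_, Or.inl ⟨b, ?_, ?_⟩⟩
      · rw [sub_self]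
        exact zero_mem _
      · apply g_injective i j f g hp hi hj
        rw [map_mul, ← hb, map_one]
        calc y * x * y⁻¹ * (y * x * y⁻¹) = y * (x * x) * y⁻¹ := by group
          _ = 1 := by rw [hx]; group
      · rw [MonoidHom.comp_apply, ← hb, map_mul, map_mul, hx', map_inv]
        rw [mul_comm (χ y), mul_assoc, mul_inv_cancel, mul_one]
  · by_cases hf : χ.comp f = 1
    · by_cases hg : χ.comp g = 1
      · exfalso
        apply h
        obtain ⟨c, -, hc⟩ := hp.desc ℤˣ (1 : A →* ℤˣ) (1 : B →* ℤˣ) rfl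
        rw [hc χ ⟨hf, hg⟩, hc 1 ⟨rfl, rfl⟩]
      · refine ⟨m, ?_, Or.inr (Or.inl ⟨hg, he⟩)⟩
        rw [sub_self]
        exact zero_mem _
    · refine ⟨n, Or.inr (Or.inl ⟨hf, ?_⟩), ?_⟩
      · rw [← neg_sub]
        exact he.neg
      · rw [sub_self]
        exact zero_mem _
  · refine ⟨m, ?_, ?_⟩
    · rw [sub_self]
      exact zero_mem _
    · rw [h]
      exact zero_mem _

/-- The example. -/
def exData : OriData where
  obj χ := ℤ ⧸ exI χ
  inst _ := inferInstance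
  map f h := exMap f h
  kappa := QuotientAddGroup.mk 1

theorem exData_k {G : Type} [Group G] (χ : G →* ℤˣ) :
    exData.k χ = (QuotientAddGroup.mk 1 : ℤ ⧸ exI χ) := rfl

theorem nonempty_theory : Nonempty Theory := by
  refine ⟨{
    toOriData := exData
    functorial := ⟨?_, ?_⟩
    values := ⟨?_, ?_, ?_, ?_⟩
    mayerVietoris := ?_ }⟩
  · intro G _ χ h a
    induction a using QuotientAddGroup.induction_on with
    | H n => rfl
  · intro G H K _ _ _ χ ψ φ f g hf hg h a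
    induction a using QuotientAddGroup.induction_on with
    | H n => rfl
  · intro n hn
    have hn' : n • (QuotientAddGroup.mk 1 : ℤ ⧸ exI (1 : Unit →* ℤˣ)) = 0 := hn
    rw [zsmul_mk, mk_eq_zero, mem_exI] at hn'
    rcases hn' with ⟨x, -, hx⟩ | ⟨h, -⟩ | h
    · exact absurd hx neg_one_ne
    · exact absurd rfl h
    · exact h
  · intro a
    induction a using QuotientAddGroup.induction_on with
    | H n => exact ⟨n, (zsmul_mk (1 : Multiplicative ℤ →* ℤˣ) n).symm⟩
  · intro h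
    exact one_not_mem_parity ((mk_eq_zero _ _).1 h)
  · exact (mk_eq_zero (MonoidHom.id ℤˣ) 1).2 (Or.inl ⟨-1, by simp, rfl⟩)
  · intro C A B G _ _ _ _ i j f g hp hi hj χ a b hab
    induction a using QuotientAddGroup.induction_on with
    | H m =>
      induction b using QuotientAddGroup.induction_on with
      | H n =>
        have hab' : exMap f rfl (QuotientAddGroup.mk m : ℤ ⧸ exI (χ.comp f)) =
            exMap g rfl (QuotientAddGroup.mk n : ℤ ⧸ exI (χ.comp g)) := hab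
        rw [exMap_mk, exMap_mk, mk_eq_mk] at hab'
        obtain ⟨c, hc, hc'⟩ := exMV i j f g hp hi hj χ m n hab'
        refine ⟨(QuotientAddGroup.mk c : ℤ ⧸ exI ((χ.comp f).comp i)), ?_, fun h => ?_⟩
        · exact (mk_eq_mk _ _ _).2 hc
        · exact (mk_eq_mk _ _ _).2 hc'

end Pool.Agent.D4
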