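import Pool.Agent.D4.Defs

/-!
# The class `kappa` on `⟨H, t | t ^ 2 = w⟩`
-/

namespace Pool.Agent.D4

open Multiplicative

section theory

variable (Ω : Theory)

theorem map_congr {G H : Type} [Group G] [Group H] {χ : G →* ℤˣ} {ψ : H →* ℤˣ} {f g : G →* H}
    (e : f = g) (hf : ψ.comp f = χ) (hg : ψ.comp g = χ) (a : Ω.obj χ) :
    Ω.map f hf a = Ω.map g hg a := by
  subst e
  rfl

theorem map_k {G H : Type} [Group G] [Group H] {χ : G →* ℤˣ} {ψ : H →* ℤˣ} (f : G →* H)
    (h : ψ.comp f = χ) : Ω.map f h (Ω.k χ) = Ω.k ψ := by
  unfold OriData.k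
  rw [Ω.functorial.map_comp 1 f (MonoidHom.comp_one _) h (by rw [MonoidHom.comp_one, MonoidHom.comp_one])]
  exact map_congr Ω (MonoidHom.comp_one f) _ _ _

theorem k_one : Ω.k (1 : Unit →* ℤˣ) = Ω.kappa :=
  Ω.functorial.map_id (MonoidHom.comp_one _) Ω.kappa

theorem point' {G : Type} [Group G] (χ : G →* ℤˣ) (h : χ = 1) (n : ℤ) (hn : n • Ω.k χ = 0) :
    n = 0 := by
  subst h
  apply Ω.values.point
  have h1 : (1 : Unit →* ℤˣ).comp (1 : G →* Unit) = 1 := rfl
  rw [← k_one, ← map_k Ω (1 : G →* Unit) h1, ← map_zsmul, hn, map_zero]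

theorem circle' (χ : Multiplicative ℤ →* ℤˣ) (h : χ = 1) (c : Ω.obj χ) :
    ∃ n : ℤ, c = n • Ω.k χ := by
  subst h
  exact Ω.values.circle c

theorem moebius' (χ : Multiplicative ℤ →* ℤˣ) (h : χ = parity) : Ω.k χ ≠ 0 := by
  subst h
  exact Ω.values.moebius

theorem involution' : Ω.k (MonoidHom.id ℤˣ) = 0 := Ω.values.involution

end theory

section root

variable {N : ℕ} (rels : Set (FreeGroup (Fin N))) (w : List (Fin N × Bool))

/-- The inclusion of `H`. -/
def incl : PresentedGroup rels →* RootGroup rels w :=
  PresentedGroup.toGroup (f := fun i => PresentedGroup.of (Fin.castSucc i)) (by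
    intro r hr
    have h1 : FreeGroup.lift (fun i : Fin N =>
        (PresentedGroup.of (Fin.castSucc i) : RootGroup rels w)) =
        (PresentedGroup.mk (rootRels rels w)).comp (FreeGroup.map Fin.castSucc) := by
      ext i
      simp [PresentedGroup.of]
    rw [h1]
    exact PresentedGroup.one_of_mem (Or.inl ⟨r, hr, rfl⟩))

theorem incl_mk (g : FreeGroup (Fin N)) : incl rels w (PresentedGroup.mk rels g) =
    PresentedGroup.mk (rootRels rels w) (FreeGroup.map Fin.castSucc g) := by
  have h1 : (incl rels w).comp (PresentedGroup.mk rels) =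
      (PresentedGroup.mk (rootRels rels w)).comp (FreeGroup.map Fin.castSucc) := by
    ext i
    simp only [MonoidHom.comp_apply, FreeGroup.map.of]
    exact PresentedGroup.toGroup.of _
  exact DFunLike.congr_fun h1 g

/-- The root `t`. -/
def root : RootGroup rels w := PresentedGroup.of (Fin.last N)

theorem root_mul_root : root rels w * root rels w =
    incl rels w (PresentedGroup.mk rels (FreeGroup.mk w)) := by
  rw [incl_mk]
  have h := PresentedGroup.one_of_mem (rels := rootRels rels w)
    (x := FreeGroup.of (Fin.last N) * FreeGroup.of (Fin.last N) *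
      (FreeGroup.map Fin.castSucc (FreeGroup.mk w))⁻¹) (Or.inr rfl)
  rw [map_mul, map_inv, mul_inv_eq_one] at h
  rw [← h, map_mul]
  rfl

theorem rootChar_incl : (rootChar rels w).comp (incl rels w) = 1 := by
  ext i
  simp only [MonoidHom.comp_apply, MonoidHom.one_apply]
  have h1 : incl rels w (PresentedGroup.of i) = PresentedGroup.of (Fin.castSucc i) :=
    PresentedGroup.toGroup.of _
  rw [h1, rootChar, PresentedGroup.toGroup.of]
  simp [sgn, Fin.castSucc_ne_last]

theorem rootChar_root : rootChar rels w (root rels w) = -1 := by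
  rw [rootChar, root, PresentedGroup.toGroup.of]
  simp [sgn]

theorem pushout_root : Pushout (zpowersHom (PresentedGroup rels)
      (PresentedGroup.mk rels (FreeGroup.mk w)))
    (zpowersHom (Multiplicative ℤ) (ofAdd (2 : ℤ))) (incl rels w)
    (zpowersHom (RootGroup rels w) (root rels w)) where
  comm := by
    ext
    simp only [MonoidHom.comp_apply, zpowersHom_apply, toAdd_ofAdd, zpow_one]
    rw [← root_mul_root]
    rw [show (2 : ℤ) = ((2 : ℕ) : ℤ) from rfl, zpow_natCast, pow_two]
  desc K _ a b hab := by
    have hab1 : a (PresentedGroup.mk rels (FreeGroup.mk w)) = b (ofAdd (2 : ℤ)) := by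
      have h := DFunLike.congr_fun hab (ofAdd (1 : ℤ))
      simpa using h
    let f : Fin (N + 1) → K := Fin.lastCases (b (ofAdd (1 : ℤ))) fun i => a (PresentedGroup.of i)
    have hf1 : (FreeGroup.lift f).comp (FreeGroup.map Fin.castSucc) =
        a.comp (PresentedGroup.mk rels) := by
      ext i
      simp only [MonoidHom.comp_apply, FreeGroup.map.of, FreeGroup.lift_apply_of, f,
        Fin.lastCases_castSucc]
      rfl
    have hf2 : ∀ g, FreeGroup.lift f (FreeGroup.map Fin.castSucc g) =
        a (PresentedGroup.mk rels g) := fun g => DFunLike.congr_fun hf1 g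
    have hf : ∀ r ∈ rootRels rels w, FreeGroup.lift f r = 1 := by
      rintro r (⟨g, hg, rfl⟩ | hr)
      · rw [hf2, PresentedGroup.one_of_mem hg, map_one]
      · rw [Set.mem_singleton_iff] at hr
        subst hr
        rw [map_mul, map_inv, hf2, map_mul, FreeGroup.lift_apply_of, hab1]
        simp only [f, Fin.lastCases_last]
        rw [← map_mul, ← ofAdd_add]
        simp
    refine ⟨PresentedGroup.toGroup hf, ⟨?_, ?_⟩, ?_⟩
    · ext i
      simp only [MonoidHom.comp_apply]
      have h1 : incl rels w (PresentedGroup.of i) = PresentedGroup.of (Fin.castSucc i) :=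
        PresentedGroup.toGroup.of _
      rw [h1, PresentedGroup.toGroup.of]
      simp [f]
    · ext
      simp only [MonoidHom.comp_apply, zpowersHom_apply, toAdd_ofAdd, zpow_one]
      rw [root, PresentedGroup.toGroup.of]
      simp [f]
    · rintro c ⟨hc1, hc2⟩
      ext i
      rw [PresentedGroup.toGroup.of]
      refine Fin.lastCases ?_ (fun i => ?_) i
      · have h := DFunLike.congr_fun hc2 (ofAdd (1 : ℤ))
        simp only [MonoidHom.comp_apply, zpowersHom_apply, toAdd_ofAdd, zpow_one] at h
        simp only [f, Fin.lastCases_last]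
        exact h
      · have h := DFunLike.congr_fun hc1 (PresentedGroup.of i)
        simp only [MonoidHom.comp_apply] at h
        have h1 : incl rels w (PresentedGroup.of i) = PresentedGroup.of (Fin.castSucc i) :=
          PresentedGroup.toGroup.of _
        rw [h1] at h
        simp only [f, Fin.lastCases_castSucc]
        exact h

/-- An element of order two gives a map from `{1, -1}`. -/
def signHom {G : Type} [Group G] (t : G) (ht : t * t = 1) : ℤˣ →* G where
  toFun u := if u = 1 then 1 else t
  map_one' := by simp
  map_mul' a b := by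
    rcases Int.units_eq_one_or a with rfl | rfl <;> rcases Int.units_eq_one_or b with rfl | rfl <;>
      simp [ht]

theorem k_eq_zero_iff (Ω : Theory)
    (h : PresentedGroup.mk rels (FreeGroup.mk w) = 1 ∨
      ¬ IsOfFinOrder (PresentedGroup.mk rels (FreeGroup.mk w))) :
    Ω.k (rootChar rels w) = 0 ↔ PresentedGroup.mk rels (FreeGroup.mk w) = 1 := by
  constructor
  · intro hk
    by_contra hw
    have hinf := h.resolve_left hw
    have hi : Function.Injective (zpowersHom (PresentedGroup rels)
        (PresentedGroup.mk rels (FreeGroup.mk w))) := by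
      intro x y hxy
      have h1 := (injective_zpow_iff_not_isOfFinOrder.2 hinf)
        (a₁ := toAdd x) (a₂ := toAdd y) (by simpa using hxy)
      exact toAdd.injective h1
    have hj : Function.Injective (zpowersHom (Multiplicative ℤ) (ofAdd (2 : ℤ))) := by
      intro x y hxy
      simp only [zpowersHom_apply, ← ofAdd_zsmul] at hxy
      have h1 := ofAdd.injective hxy
      simp only [smul_eq_mul] at h1
      apply toAdd.injective
      omega
    have hsum : Ω.map (incl rels w) rfl (Ω.k ((rootChar rels w).comp (incl rels w))) =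
        Ω.map (zpowersHom (RootGroup rels w) (root rels w)) rfl
          (0 : Ω.obj ((rootChar rels w).comp (zpowersHom (RootGroup rels w) (root rels w)))) := by
      rw [map_k, hk, map_zero]
    obtain ⟨c, hc1, hc2⟩ := Ω.mayerVietoris _ _ _ _ (pushout_root rels w) hi hj
      (rootChar rels w) _ _ hsum
    have hχ : ((rootChar rels w).comp (incl rels w)).comp (zpowersHom (PresentedGroup rels)
        (PresentedGroup.mk rels (FreeGroup.mk w))) = 1 := by
      rw [rootChar_incl]
      rfl
    obtain ⟨n, rfl⟩ := circle' Ω _ hχ c
    have hn : n = 1 := by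
      rw [map_zsmul, map_k] at hc1
      have h2 : (n - 1) • Ω.k ((rootChar rels w).comp (incl rels w)) = 0 := by
        rw [sub_smul, hc1, one_smul, sub_self]
      have := point' Ω _ (rootChar_incl rels w) _ h2
      omega
    subst hn
    have hcomm : ((rootChar rels w).comp (zpowersHom (RootGroup rels w) (root rels w))).comp
        (zpowersHom (Multiplicative ℤ) (ofAdd (2 : ℤ))) =
        ((rootChar rels w).comp (incl rels w)).comp (zpowersHom (PresentedGroup rels)
          (PresentedGroup.mk rels (FreeGroup.mk w))) := by
      rw [MonoidHom.comp_assoc, MonoidHom.comp_assoc, (pushout_root rels w).comm]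
    have h3 := hc2 hcomm
    rw [one_smul, map_k] at h3
    refine moebius' Ω _ ?_ h3
    ext
    simp [rootChar_root, parity]
  · intro hw
    have ht : root rels w * root rels w = 1 := by
      rw [root_mul_root, hw, map_one]
    have h1 : (rootChar rels w).comp (signHom (root rels w) ht) = MonoidHom.id ℤˣ := by
      refine MonoidHom.ext fun u => ?_
      rcases Int.units_eq_one_or u with rfl | rfl
      · simp
      · have h2 : signHom (root rels w) ht (-1) = root rels w := by
          simp [signHom]
        rw [MonoidHom.comp_apply, h2, rootChar_root]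
        rfl
    rw [← map_k Ω (signHom (root rels w) ht) h1, involution', map_zero]

end root

end Pool.Agent.D4
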