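import Pool.Agent.D4.Defs

/-!
# Elements of order two in an amalgamated product

PROOF. Let `φ : ∀ b : Bool, C →* (A, B)` be `i, j` and `P = Monoid.PushoutI φ` (the maps
`Monoid.PushoutI.of`, `Monoid.PushoutI.base`, `Monoid.PushoutI.lift`). The pushout property gives
`c : G →* P` with `c ∘ f = of true`, `c ∘ g = of false` (and an inverse, `G ≃* P`).
`f_injective`: `c ∘ f` is injective by `Monoid.PushoutI.of_injective`.
`conj_of_sq_eq_one`: for `x ∈ P` write `x` as a product of elements of the factors and choose,
among all conjugates of `x`, one which is the product of a list `[(i₁, a₁), …, (i_n, a_n)]` of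
elements of the factors of minimal length `n`. If `n ≤ 1` we are done. If `n ≥ 2`, minimality
gives: consecutive indices differ (else merge), no `a_k` is in the image of `C` (else merge it
with a neighbour), and `i_n ≠ i₁` (else conjugate and merge). Then the list repeated twice is a
reduced word of length `2 n > 0` with product `x' * x' = 1 = base 1`, contradicting
`Monoid.PushoutI.Reduced.eq_empty_of_mem_range`.
-/

namespace Pool.Agent.D4

namespace TorsionAux

open Monoid

section general

variable {ι : Type} {H : Type} {F : ι → Type} [Group H] [∀ i, Group (F i)]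
  {φ : ∀ i, H →* F i}

/-- the product of a list of elements of the factors -/
private def prodL (φ : ∀ i, H →* F i) (l : List (Σ i, F i)) : PushoutI φ :=
  (l.map (fun p => PushoutI.of p.1 p.2)).prod

private theorem prodL_nil : prodL φ [] = 1 := by simp [prodL]

private theorem prodL_cons (p : Σ i, F i) (l : List (Σ i, F i)) :
    prodL φ (p :: l) = PushoutI.of p.1 p.2 * prodL φ l := by simp [prodL]

private theorem prodL_append (l m : List (Σ i, F i)) :
    prodL φ (l ++ m) = prodL φ l * prodL φ m := by simp [prodL]

private theorem exists_prodL [Nonempty ι] (x : PushoutI φ) : ∃ l, x = prodL φ l := by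
  induction x using PushoutI.induction_on with
  | of i g => exact ⟨[⟨i, g⟩], by simp [prodL]⟩
  | base h =>
    obtain ⟨i⟩ := ‹Nonempty ι›
    exact ⟨[⟨i, φ i h⟩], by simp [prodL, PushoutI.of_apply_eq_base]⟩
  | mul x y hx hy =>
    obtain ⟨l, rfl⟩ := hx
    obtain ⟨m, rfl⟩ := hy
    exact ⟨l ++ m, by rw [prodL_append]⟩

private theorem exists_of_not_chain {α : Type} {R : α → α → Prop} (l : List α)
    (h : ¬ l.IsChain R) : ∃ l₁ a b l₂, l = l₁ ++ a :: b :: l₂ ∧ ¬ R a b := by
  induction l with
  | nil => exact absurd List.IsChain.nil h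
  | cons a t ih =>
    cases t with
    | nil => exact absurd (List.IsChain.singleton a) h
    | cons b t =>
      by_cases hab : R a b
      · have : ¬ (b :: t).IsChain R := fun h' => h (List.IsChain.cons_cons hab h')
        obtain ⟨l₁, c, d, l₂, h1, h2⟩ := ih this
        exact ⟨a :: l₁, c, d, l₂, by rw [h1]; rfl, h2⟩
      · exact ⟨[], a, b, t, rfl, hab⟩

private theorem prodL_merge (l₁ l₂ : List (Σ i, F i)) {k : ι} (u v : F k) :
    prodL φ (l₁ ++ ⟨k, u⟩ :: ⟨k, v⟩ :: l₂) = prodL φ (l₁ ++ ⟨k, u * v⟩ :: l₂) := by
  simp only [prodL_append, prodL_cons, map_mul, mul_assoc]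

private theorem key [Nonempty ι] (hφ : ∀ i, Function.Injective (φ i)) (x : PushoutI φ)
    (hx : x * x = 1) : ∃ (y : PushoutI φ) (k : ι) (a : F k),
      y * x * y⁻¹ = PushoutI.of k a := by
  classical
  have hex : ∃ n, ∃ (y : PushoutI φ) (l : List (Σ i, F i)),
      l.length = n ∧ y * x * y⁻¹ = prodL φ l := by
    obtain ⟨l, hl⟩ := exists_prodL x
    exact ⟨l.length, 1, l, rfl, by simp [← hl]⟩
  obtain ⟨y, l, hlen, hy⟩ := Nat.find_spec hex
  have hmin : ∀ (y' : PushoutI φ) (l' : List (Σ i, F i)),
      y' * x * y'⁻¹ = prodL φ l' → l.length ≤ l'.length := by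
    intro y' l' h
    rw [hlen]
    exact Nat.find_min' hex ⟨y', l', rfl, h⟩
  clear hlen
  rcases l with _ | ⟨p, t⟩
  · obtain ⟨k⟩ := ‹Nonempty ι›
    exact ⟨y, k, 1, by rw [hy, prodL_nil, map_one]⟩
  rcases t.eq_nil_or_concat with rfl | ⟨m, q, ht⟩
  · exact ⟨y, p.1, p.2, by rw [hy, prodL_cons, prodL_nil, mul_one]⟩
  exfalso
  rw [List.concat_eq_append] at ht
  -- consecutive indices differ
  have hchain : (p :: t).IsChain (fun a b => a.1 ≠ b.1) := by
    by_contra hc
    obtain ⟨l₁, ⟨k, u⟩, ⟨k', v⟩, l₂, h1, h2⟩ := exists_of_not_chain _ hc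
    simp only [ne_eq, not_not] at h2
    subst h2
    rw [h1, prodL_merge] at hy
    have := hmin y _ hy
    rw [h1] at this
    simp at this
  -- no letter is in the base
  have hred : ∀ r ∈ p :: t, r.2 ∉ (φ r.1).range := by
    rintro ⟨k, u⟩ hr ⟨h, hh⟩
    simp only at hh
    obtain ⟨l₁, l₂, h1⟩ := List.append_of_mem hr
    have hne : l₁ ≠ [] ∨ l₂ ≠ [] := by
      by_contra hn
      push Not at hn
      rw [hn.1, hn.2, ht] at h1
      simp at h1
    have hu : PushoutI.of (φ := φ) k u = PushoutI.base φ h := by
      rw [← hh, PushoutI.of_apply_eq_base]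
    rcases hne with hne | hne
    · obtain ⟨l₃, ⟨k', v⟩, h3⟩ := (l₁.eq_nil_or_concat).resolve_left hne
      rw [List.concat_eq_append] at h3
      have h4 : prodL φ (p :: t) = prodL φ (l₃ ++ ⟨k', v * φ k' h⟩ :: l₂) := by
        rw [h1, h3]
        simp only [prodL_append, prodL_cons, prodL_nil, mul_one, map_mul, mul_assoc, hu,
          PushoutI.of_apply_eq_base]
      rw [h4] at hy
      have := hmin y _ hy
      rw [h1, h3] at this
      simp at this
    · obtain ⟨⟨k', v⟩, l₃, h3⟩ := List.exists_cons_of_ne_nil hne
      have h4 : prodL φ (p :: t) = prodL φ (l₁ ++ ⟨k', φ k' h * v⟩ :: l₃) := by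
        rw [h1, h3]
        simp only [prodL_append, prodL_cons, map_mul, mul_assoc, hu,
          PushoutI.of_apply_eq_base]
      rw [h4] at hy
      have := hmin y _ hy
      rw [h1, h3] at this
      simp at this
  -- last and first index differ
  have hends : q.1 ≠ p.1 := by
    intro hqp
    obtain ⟨k, u⟩ := p
    obtain ⟨k', v⟩ := q
    simp only at hqp
    subst hqp
    have h4 : (PushoutI.of k' v * y) * x * (PushoutI.of k' v * y)⁻¹ =
        prodL φ (⟨k', v * u⟩ :: m) := by
      have : (PushoutI.of (φ := φ) k' v * y) * x * (PushoutI.of k' v * y)⁻¹ =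
          PushoutI.of k' v * (y * x * y⁻¹) * (PushoutI.of k' v)⁻¹ := by group
      rw [this, hy, ht]
      simp only [prodL_append, prodL_cons, prodL_nil, mul_one, map_mul]
      group
    have := hmin _ _ h4
    rw [ht] at this
    simp at this
  have hlast : (p :: t).getLast? = some q := by
    rw [ht, ← List.cons_append, List.getLast?_append]
    simp
  have hchain2 : ((p :: t) ++ (p :: t)).IsChain (fun a b => a.1 ≠ b.1) := by
    rw [List.isChain_append]
    refine ⟨hchain, hchain, ?_⟩
    intro a ha b hb
    rw [hlast] at ha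
    simp only [Option.mem_def, Option.some.injEq, List.head?_cons] at ha hb
    subst ha
    subst hb
    exact hends
  let w : CoprodI.Word F := ⟨(p :: t) ++ (p :: t), by
    intro r hr h1
    have hr' : r ∈ p :: t := by
      rcases List.mem_append.mp hr with h | h <;> exact h
    apply hred r hr'
    rw [h1]
    exact one_mem _, hchain2⟩
  have hw : PushoutI.Reduced φ w := by
    intro r hr
    have hr' : r ∈ p :: t := by
      rcases List.mem_append.mp hr with h | h <;> exact h
    exact hred r hr'
  have hprod : PushoutI.ofCoprodI (φ := φ) w.prod = prodL φ ((p :: t) ++ (p :: t)) := by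
    rw [CoprodI.Word.prod, map_list_prod, List.map_map]
    rfl
  have h1 : PushoutI.ofCoprodI (φ := φ) w.prod = 1 := by
    rw [hprod, prodL_append, ← hy]
    calc y * x * y⁻¹ * (y * x * y⁻¹) = y * (x * x) * y⁻¹ := by group
      _ = 1 := by rw [hx]; group
  have h2 := hw.eq_empty_of_mem_range hφ (by rw [h1]; exact one_mem _)
  have h3 : w.toList = [] := by rw [h2]; rfl
  simp [w] at h3

end general

section two

variable {C A B : Type} [Group C] [Group A] [Group B]

/-- the two factors -/
private def Fac (A B : Type) : Bool → Type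
  | true => A
  | false => B

private instance instFac (b : Bool) : Group (Fac A B b) :=
  match b with
  | true => inferInstanceAs (Group A)
  | false => inferInstanceAs (Group B)

/-- the two maps -/
private def two (i : C →* A) (j : C →* B) : ∀ b, C →* Fac A B b
  | true => i
  | false => j

private theorem two_injective {i : C →* A} {j : C →* B}
    (hi : Function.Injective i) (hj : Function.Injective j) (b : Bool) :
    Function.Injective (two i j b) := by
  cases b
  · exact hj
  · exact hi

private def ofA (i : C →* A) (j : C →* B) : A →* PushoutI (two i j) :=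
  PushoutI.of (φ := two i j) true

private def ofB (i : C →* A) (j : C →* B) : B →* PushoutI (two i j) :=
  PushoutI.of (φ := two i j) false

private theorem of_comm (i : C →* A) (j : C →* B) : (ofA i j).comp i = (ofB i j).comp j := by
  have h1 := PushoutI.of_comp_eq_base (φ := two i j) true
  have h2 := PushoutI.of_comp_eq_base (φ := two i j) false
  exact h1.trans h2.symm

variable {G : Type} [Group G]

private def back (i : C →* A) (j : C →* B) (f : A →* G) (g : B →* G)
    (hc : f.comp i = g.comp j) : PushoutI (two i j) →* G :=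
  PushoutI.lift (φ := two i j) (fun b => match b with
    | true => f
    | false => g) (f.comp i) (fun b => match b with
    | true => rfl
    | false => hc.symm)

private theorem back_ofA (i : C →* A) (j : C →* B) (f : A →* G) (g : B →* G)
    (hc : f.comp i = g.comp j) (a : A) : back i j f g hc (ofA i j a) = f a :=
  PushoutI.lift_of (φ := two i j) _ _ _ (i := true) a

private theorem back_ofB (i : C →* A) (j : C →* B) (f : A →* G) (g : B →* G)
    (hc : f.comp i = g.comp j) (a : B) : back i j f g hc (ofB i j a) = g a :=
  PushoutI.lift_of (φ := two i j) _ _ _ (i := false) a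

end two

end TorsionAux

open TorsionAux Monoid

theorem f_injective {C A B G : Type} [Group C] [Group A] [Group B] [Group G]
    (i : C →* A) (j : C →* B) (f : A →* G) (g : B →* G) (hp : Pushout i j f g)
    (hi : Function.Injective i) (hj : Function.Injective j) : Function.Injective f := by
  obtain ⟨c, ⟨hc1, hc2⟩, -⟩ := hp.desc _ (ofA i j) (ofB i j) (of_comm i j)
  have h : Function.Injective (ofA i j) :=
    PushoutI.of_injective (φ := two i j) (two_injective hi hj) true
  intro a b hab
  apply h
  rw [← hc1]
  simp [hab]

theorem g_injective {C A B G : Type} [Group C] [Group A] [Group B] [Group G]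
    (i : C →* A) (j : C →* B) (f : A →* G) (g : B →* G) (hp : Pushout i j f g)
    (hi : Function.Injective i) (hj : Function.Injective j) : Function.Injective g := by
  obtain ⟨c, ⟨hc1, hc2⟩, -⟩ := hp.desc _ (ofA i j) (ofB i j) (of_comm i j)
  have h : Function.Injective (ofB i j) :=
    PushoutI.of_injective (φ := two i j) (two_injective hi hj) false
  intro a b hab
  apply h
  rw [← hc2]
  simp [hab]

/-- An element of order two of an amalgamated product is conjugate into a factor. -/
theorem conj_of_sq_eq_one {C A B G : Type} [Group C] [Group A] [Group B] [Group G]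
    (i : C →* A) (j : C →* B) (f : A →* G) (g : B →* G) (hp : Pushout i j f g)
    (hi : Function.Injective i) (hj : Function.Injective j) (x : G) (hx : x * x = 1) :
    ∃ y : G, (∃ a, y * x * y⁻¹ = f a) ∨ (∃ b, y * x * y⁻¹ = g b) := by
  obtain ⟨c, ⟨hc1, hc2⟩, -⟩ := hp.desc _ (ofA i j) (ofB i j) (of_comm i j)
  obtain ⟨e, -, he⟩ := hp.desc G f g hp.comm
  set d := back i j f g hp.comm with hd
  have hdc : d.comp c = MonoidHom.id G := by
    have h1 := he (d.comp c) ⟨by
      rw [MonoidHom.comp_assoc, hc1]
      ext a
      exact back_ofA i j f g hp.comm a, by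
      rw [MonoidHom.comp_assoc, hc2]
      ext a
      exact back_ofB i j f g hp.comm a⟩
    have h2 := he (MonoidHom.id G) ⟨MonoidHom.id_comp f, MonoidHom.id_comp g⟩
    rw [h1, h2]
  have hdcx : ∀ z, d (c z) = z := fun z => by
    have := DFunLike.congr_fun hdc z
    simpa using this
  have hcx : c x * c x = 1 := by rw [← map_mul, hx, map_one]
  obtain ⟨y, k, a, hy⟩ := key (φ := two i j) (two_injective hi hj) (c x) hcx
  have hy' := congrArg d hy
  rw [map_mul, map_mul, map_inv, hdcx] at hy'
  refine ⟨d y, ?_⟩
  cases k with
  | true => exact Or.inl ⟨a, hy'.trans (back_ofA i j f g hp.comm a)⟩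
  | false => exact Or.inr ⟨a, hy'.trans (back_ofB i j f g hp.comm a)⟩

end Pool.Agent.D4
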